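import Pool.Agent.H765.SC.Stm

/-!
# Project SC: the boundary of the plumbing of two annuli, the second one twisted
-/

set_option autoImplicit false

namespace Pool.Agent.H696.SC.PLU

open PowerSeries Pool.Agent.H765.GK Pool.Agent.H765.DB Pool.Agent.H765.ST Pool.Agent.H765.MM
open Pool.Agent.H765.SC

theorem coeff_one_aux {J : ℤ → ℚ⟦X⟧} (h2 : ∀ N, X ^ 2 ∣ J N - unknotJ N) (a : ℚ) :
    coeff 1 (hexp a * J 3 - unknotJ 3) = 3 * a := by
  obtain ⟨r, hr⟩ := h2 3
  have h3 : J 3 = unknotJ 3 + X ^ 2 * r := by rw [← hr]; ring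
  have t := ((t4_hexp a).mul (t4_unknotJ 3)).2.1
  have t3 := (t4_unknotJ 3).2.1
  rw [h3, mul_add, map_sub, map_add, t, t3, show hexp a * (X ^ 2 * r) = X ^ 2 * (hexp a * r) by
    ring, coeff_X_pow_mul', if_neg (by norm_num)]
  push_cast
  ring

theorem t_PLU (h : S_ANN) : S_PLU := by
  intro J L hJ hL m n hn hpl
  have hLne : ∀ i, annulus L n i ≠ 0 := by
    intro i h0
    have h1 := h L hL n i
    rw [h0, map_zero] at h1
    exact pow_ne_zero i (mul_ne_zero two_ne_zero (Int.cast_ne_zero.mpr hn)) h1.symm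
  have htr : plumbJ unknotJ 0 L n = unknotJ :=
    plumb_trivial unknotJ_one hL.one 0 n fun i hi => by rw [annulus_unknot i hi, zero_mul]
  have hb : ∀ i, annulus J m i = annulus unknotJ 0 i := fun i =>
    mul_right_cancel₀ (hLne i) (plumb_determines (J := J) (L := L) (m := m) (n := n)
      (J' := unknotJ) (m' := 0) (L' := L) (n' := n) (fun N => by rw [hpl, htr]) i)
  have hm : m = 0 := by
    have e1 := annulus_first hJ.one m
    rw [hb 1, annulus_first unknotJ_one 0] at e1
    have e2 := congrArg (coeff 1) e1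
    rw [coeff_one_aux hJ.two, coeff_one_aux (J := unknotJ) (fun N => by simp)] at e2
    have e3 : (m : ℚ) = 0 := by
      push_cast at e2
      linarith
    exact_mod_cast e3
  subst hm
  exact ⟨rfl, PF.ext_odd hJ.poly PF.unknot (annulus_determines (m := 0) hb)⟩

end Pool.Agent.H696.SC.PLU
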